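import Pool.Agent.W960.HC.Defs

set_option autoImplicit false

open Set Topology Filter MeasureTheory

namespace Pool.Agent.W587.HC

open Pool.Agent.W960.HC

lemma kp_pos (X : ℝ) : 0 < kp X := by unfold kp; positivity

lemma kp_lt_one {X : ℝ} (hX : 0 < X) : kp X < 1 := by
  unfold kp
  rw [Real.exp_neg, inv_mul_lt_iff₀ (Real.exp_pos _), mul_one]
  have := Real.add_one_lt_exp (x := X ^ 2) (by positivity)
  linarith

lemma kp_eq (X : ℝ) : kp X * Real.exp (X ^ 2) = 1 + X ^ 2 := by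
  unfold kp
  have e : Real.exp (X ^ 2) * Real.exp (-X ^ 2) = 1 := by rw [← Real.exp_add]; simp
  calc Real.exp (-X ^ 2) * (1 + X ^ 2) * Real.exp (X ^ 2) =
      (Real.exp (X ^ 2) * Real.exp (-X ^ 2)) * (1 + X ^ 2) := by ring
    _ = _ := by rw [e, one_mul]

lemma L0 {κ x0 x : ℝ} (h0 : 0 ≤ x0) (h : x0 < x) (hm : 1 + x0 ^ 2 ≤ κ * Real.exp (x0 ^ 2)) :
    1 + x ^ 2 < κ * Real.exp (x ^ 2) := by
  have hd : 0 < x ^ 2 - x0 ^ 2 := by nlinarith
  have he : 1 + (x ^ 2 - x0 ^ 2) < Real.exp (x ^ 2 - x0 ^ 2) := by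
    have := Real.add_one_lt_exp (x := x ^ 2 - x0 ^ 2) hd.ne'
    linarith
  have e : Real.exp (x ^ 2) = Real.exp (x0 ^ 2) * Real.exp (x ^ 2 - x0 ^ 2) := by
    rw [← Real.exp_add]; ring_nf
  rw [e]
  calc 1 + x ^ 2 ≤ (1 + x0 ^ 2) * (1 + (x ^ 2 - x0 ^ 2)) := by nlinarith [sq_nonneg x0]
    _ < (1 + x0 ^ 2) * Real.exp (x ^ 2 - x0 ^ 2) :=
        mul_lt_mul_of_pos_left he (by positivity)
    _ ≤ κ * Real.exp (x0 ^ 2) * Real.exp (x ^ 2 - x0 ^ 2) :=
        mul_le_mul_of_nonneg_right hm (Real.exp_pos _).le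
    _ = _ := by ring

lemma lev {X : ℝ} {p : ℝ × ℝ} (h : kap p = kp X) :
    p.2 ^ 2 = 1 + p.1 ^ 2 - kp X * Real.exp (p.1 ^ 2) := by
  unfold kap at h
  have e : Real.exp (p.1 ^ 2) * Real.exp (-p.1 ^ 2) = 1 := by rw [← Real.exp_add]; simp
  have h2 : 1 + p.1 ^ 2 - p.2 ^ 2 = kp X * Real.exp (p.1 ^ 2) := by
    rw [← h]
    calc 1 + p.1 ^ 2 - p.2 ^ 2 =
        (Real.exp (p.1 ^ 2) * Real.exp (-p.1 ^ 2)) * (1 + p.1 ^ 2 - p.2 ^ 2) := by rw [e, one_mul]
      _ = _ := by ring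
  linarith

lemma absle {X : ℝ} (hX : 0 < X) {p : ℝ × ℝ} (h : kap p = kp X) : |p.1| ≤ X := by
  by_contra hc
  push Not at hc
  have h1 := L0 (κ := kp X) hX.le hc (kp_eq X).ge
  rw [sq_abs] at h1
  have h2 := lev h
  nlinarith [sq_nonneg p.2]

lemma normle {X : ℝ} (hX : 0 < X) {p : ℝ × ℝ} (h : kap p = kp X) : ‖p‖ ≤ 1 + X := by
  have h1 := absle hX h
  have h2 := lev h
  rw [Prod.norm_def]
  refine max_le ?_ ?_
  · rw [Real.norm_eq_abs]; linarith
  · rw [Real.norm_eq_abs]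
    refine abs_le_of_sq_le_sq ?_ (by linarith)
    have h3 : p.1 ^ 2 ≤ X ^ 2 := by
      rw [← sq_abs]
      exact pow_le_pow_left₀ (abs_nonneg _) h1 2
    have h4 : 0 < kp X * Real.exp (p.1 ^ 2) := mul_pos (kp_pos X) (Real.exp_pos _)
    nlinarith

lemma sol_fst {a c : ℝ} {γ : ℝ → ℝ × ℝ} {t : ℝ} (h : HasDerivAt γ (fld a c 0 (γ t)) t) :
    HasDerivAt (fun t => (γ t).1) (γ t).2 t := by
  have h2 := (hasFDerivAt_fst (𝕜 := ℝ) (p := γ t)).comp_hasDerivAt t h
  exact h2.congr_deriv (by simp [fld])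

lemma sol_snd {a c : ℝ} {γ : ℝ → ℝ × ℝ} {t : ℝ} (h : HasDerivAt γ (fld a c 0 (γ t)) t) :
    HasDerivAt (fun t => (γ t).2) (-(γ t).1 ^ 3 + (γ t).1 * (γ t).2 ^ 2) t := by
  have h2 := (hasFDerivAt_snd (𝕜 := ℝ) (p := γ t)).comp_hasDerivAt t h
  exact h2.congr_deriv (by simp [fld])

lemma sol_kap {a c : ℝ} {γ : ℝ → ℝ × ℝ} {t : ℝ} (h : HasDerivAt γ (fld a c 0 (γ t)) t) :
    HasDerivAt (fun t => kap (γ t)) 0 t := by
  have hx := sol_fst h
  have hy := sol_snd h
  have h1 := ((hx.pow 2).neg.exp).mul (((hx.pow 2).const_add 1).sub (hy.pow 2))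
  refine (h1.congr_deriv ?_)
  simp only [Pi.pow_apply, Pi.neg_apply, Pi.sub_apply, Pi.add_apply]
  push_cast
  ring

lemma grow {f f' : ℝ → ℝ} (hf : ∀ t, HasDerivAt f (f' t) t) {C u v : ℝ} (huv : u ≤ v)
    (h : ∀ t, u < t → t < v → C ≤ f' t) : C * (v - u) ≤ f v - f u :=
  (convex_Icc u v).mul_sub_le_image_sub_of_le_deriv
    (fun t _ => (hf t).continuousAt.continuousWithinAt)
    (fun t _ => (hf t).differentiableAt.differentiableWithinAt)
    (by
      rw [interior_Icc]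
      intro t ht
      rw [(hf t).deriv]
      exact h t ht.1 ht.2) u (left_mem_Icc.2 huv) v (right_mem_Icc.2 huv) huv

/-- a global solution on the level -/
lemma exists_sol (hF : ∀ a c R : ℝ, ∃ Z W, Flw a c R Z W) (a c : ℝ) {X : ℝ} (hX : 0 < X) :
    ∃ γ : ℝ → ℝ × ℝ, γ 0 = (0, et X) ∧ (∀ t, HasDerivAt γ (fld a c 0 (γ t)) t) ∧
      ∀ t, kap (γ t) = kp X := by
  obtain ⟨Z, W, hZ⟩ := hF a c (X + 2)
  let γ : ℝ → ℝ × ℝ := fun t => Z t (0, et X) 0
  have hγ0 : γ 0 = (0, et X) := hZ.zero _ _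
  have hcont : Continuous γ := by
    have h1 := hZ.smZ.continuous
    exact h1.comp (by fun_prop : Continuous fun t : ℝ => (t, ((0 : ℝ), et X), (0 : ℝ)))
  have hkc : Continuous fun t => kap (γ t) := by
    unfold kap
    fun_prop
  have hder : ∀ t, ‖γ t‖ < X + 2 → HasDerivAt γ (fld a c 0 (γ t)) t := fun t ht =>
    hZ.der (0, et X) 0 t ht (by norm_num)
  have hk0 : kap (γ 0) = kp X := by
    rw [hγ0]
    unfold kap et
    rw [Real.sq_sqrt (by linarith [kp_lt_one hX])]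
    simp
  have hclopen : IsClopen {t : ℝ | kap (γ t) = kp X} := by
    refine ⟨isClosed_eq hkc continuous_const, ?_⟩
    rw [isOpen_iff_mem_nhds]
    intro t ht
    have ht' : kap (γ t) = kp X := ht
    have hn : ‖γ t‖ < X + 2 := by linarith [normle hX ht']
    obtain ⟨δ, hδ, hb⟩ := Metric.eventually_nhds_iff_ball.1
      ((hcont.norm.continuousAt (x := t)).eventually_lt_const hn)
    refine Filter.mem_of_superset (Metric.ball_mem_nhds t hδ) ?_
    intro s hs
    have h1 := (convex_ball t δ).norm_image_sub_le_of_norm_hasDerivWithin_le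
      (f := fun t => kap (γ t)) (f' := fun _ => 0) (C := 0)
      (fun u hu => (sol_kap (hder u (hb u hu))).hasDerivWithinAt) (fun u _ => by simp)
      (Metric.mem_ball_self hδ) hs
    rw [zero_mul] at h1
    have h2 := norm_le_zero_iff.1 h1
    show kap (γ s) = kp X
    have h3 : kap (γ s) - kap (γ t) = 0 := h2
    linarith
  have huniv : {t : ℝ | kap (γ t) = kp X} = univ := by
    rcases isClopen_iff.1 hclopen with h | h
    · exact absurd (show (0 : ℝ) ∈ {t : ℝ | kap (γ t) = kp X} from hk0) (by rw [h]; simp)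
    · exact h
  have hall : ∀ t, kap (γ t) = kp X := fun t => by
    have : t ∈ {t : ℝ | kap (γ t) = kp X} := by rw [huniv]; trivial
    exact this
  exact ⟨γ, hγ0, fun t => hder t (by linarith [normle hX (hall t)]), hall⟩

lemma ypr {X : ℝ} {p : ℝ × ℝ} (h : kap p = kp X) :
    -p.1 ^ 3 + p.1 * p.2 ^ 2 = p.1 * (1 - kp X * Real.exp (p.1 ^ 2)) := by
  rw [lev h]; ring

theorem quarter (hF : ∀ a c R : ℝ, ∃ Z W, Flw a c R Z W) (a c : ℝ) {X : ℝ} (hX : 0 < X) :
    ∃ T > 0, ∃ γ : ℝ → ℝ × ℝ,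
    γ 0 = (0, et X) ∧ γ T = (0, -et X) ∧
    (∀ t ∈ Icc 0 T, HasDerivAt γ (fld a c 0 (γ t)) t) ∧
    (∀ t ∈ Icc 0 T, kap (γ t) = kp X) ∧ (∀ t ∈ Icc 0 T, ‖γ t‖ ≤ 1 + X) ∧
    (∀ t ∈ Ioo 0 T, 0 < (γ t).1) ∧ ∫ t in (0:ℝ)..T, G a c (γ t) = 2 * Mel a c X := by
  obtain ⟨γ, hγ0, hγd, hk⟩ := exists_sol hF a c hX
  have hη : 0 < et X := Real.sqrt_pos.2 (by linarith [kp_lt_one hX])
  have hx : ∀ t, HasDerivAt (fun t => (γ t).1) (γ t).2 t := fun t => sol_fst (hγd t)
  have hy : ∀ t, HasDerivAt (fun t => (γ t).2)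
      ((γ t).1 * (1 - kp X * Real.exp ((γ t).1 ^ 2))) t := fun t => by
    have h := sol_snd (hγd t)
    rwa [ypr (hk t)] at h
  have hcx : Continuous fun t => (γ t).1 := continuous_iff_continuousAt.2 fun t => (hx t).continuousAt
  have hcy : Continuous fun t => (γ t).2 := continuous_iff_continuousAt.2 fun t => (hy t).continuousAt
  have hx0 : (γ 0).1 = 0 := by rw [hγ0]
  have hy0 : (γ 0).2 = et X := by rw [hγ0]
  -- the velocity vanishes at some time
  have hex : ∃ t : ℝ, 0 ≤ t ∧ (γ t).2 ≤ 0 := by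
    by_contra hcon
    push Not at hcon
    have hmono : ∀ s t : ℝ, 0 ≤ s → s ≤ t → (γ s).1 ≤ (γ t).1 := by
      intro s t hs hst
      have := grow hx (C := 0) hst (fun u hu _ => (hcon u (by linarith)).le)
      simp only [zero_mul] at this
      linarith
    have hxn : ∀ t : ℝ, 0 ≤ t → 0 ≤ (γ t).1 := fun t ht => by
      have := hmono 0 t le_rfl ht
      rwa [hx0] at this
    set t1 : ℝ := (X + 1) / et X with ht1
    have ht1p : 0 < t1 := by positivity
    have hq : 1 - kp X * Real.exp ((γ t1).1 ^ 2) < 0 := by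
      by_contra hq
      push Not at hq
      have h1 : ∀ s : ℝ, 0 ≤ s → s ≤ t1 → et X ≤ (γ s).2 := by
        intro s hs hst
        have := grow hy (C := 0) hs (fun u hu hu' => by
          refine mul_nonneg (hxn u hu.le) ?_
          have h2 : (γ u).1 ^ 2 ≤ (γ t1).1 ^ 2 :=
            pow_le_pow_left₀ (hxn u hu.le) (hmono u t1 hu.le (by linarith)) 2
          have h3 := Real.exp_le_exp.2 h2
          have h4 := mul_le_mul_of_nonneg_left h3 (kp_pos X).le
          linarith)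
        simp only [zero_mul] at this
        rw [hy0] at this
        linarith
      have h2 := grow hx (C := et X) ht1p.le (fun u hu hu' => h1 u hu.le hu'.le)
      rw [hx0, sub_zero, sub_zero] at h2
      have h3 : et X * t1 = X + 1 := by rw [ht1]; field_simp
      have h4 := absle hX (hk t1)
      have h5 := le_abs_self (γ t1).1
      linarith
    have hx1 : 0 < (γ t1).1 := by
      rcases (hxn t1 ht1p.le).lt_or_eq with h | h
      · exact h
      · exfalso
        rw [← h] at hq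
        simp at hq
        linarith [kp_lt_one hX]
    set q : ℝ := -((γ t1).1 * (1 - kp X * Real.exp ((γ t1).1 ^ 2))) with hqdef
    have hqpos : 0 < q := by rw [hqdef]; nlinarith
    have hyneg : ∀ t, HasDerivAt (fun t => -(γ t).2)
        (-((γ t).1 * (1 - kp X * Real.exp ((γ t).1 ^ 2)))) t := fun t => (hy t).neg
    set t2 : ℝ := t1 + (γ t1).2 / q with ht2
    have hyt1 := hcon t1 ht1p.le
    have ht12 : t1 ≤ t2 := by
      rw [ht2]
      have : 0 ≤ (γ t1).2 / q := by positivity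
      linarith
    have h6 := grow hyneg (C := q) ht12 (fun u hu _ => by
      have hu0 : 0 ≤ u := by linarith
      have h7 := hmono t1 u ht1p.le hu.le
      have h8 : (γ t1).1 ^ 2 ≤ (γ u).1 ^ 2 := pow_le_pow_left₀ hx1.le h7 2
      have h9 := mul_le_mul_of_nonneg_left (Real.exp_le_exp.2 h8) (kp_pos X).le
      rw [hqdef]
      have h10 : (γ u).1 * (1 - kp X * Real.exp ((γ u).1 ^ 2)) ≤
          (γ t1).1 * (1 - kp X * Real.exp ((γ t1).1 ^ 2)) := by nlinarith
      linarith)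
    have h11 : q * (t2 - t1) = (γ t1).2 := by rw [ht2]; field_simp; ring
    have h12 := hcon t2 (by linarith)
    rw [h11] at h6
    linarith
  -- first time
  set S : Set ℝ := {t : ℝ | 0 ≤ t ∧ (γ t).2 ≤ 0} with hS
  have hSc : IsClosed S := (isClosed_le continuous_const continuous_id).inter
    (isClosed_le hcy continuous_const)
  have hSb : BddBelow S := ⟨0, fun t ht => ht.1⟩
  obtain ⟨t0, ht0, ht0'⟩ := hex
  have hSn : S.Nonempty := ⟨t0, ht0, ht0'⟩
  set T1 : ℝ := sInf S with hT1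
  have hT1S : T1 ∈ S := hSc.csInf_mem hSn hSb
  have hT1pos : 0 < T1 := by
    rcases hT1S.1.lt_or_eq with h | h
    · exact h
    · exfalso
      have h2 := hT1S.2
      rw [← h, hy0] at h2
      linarith
  have hypos : ∀ t, 0 ≤ t → t < T1 → 0 < (γ t).2 := by
    intro t ht htT
    by_contra hc
    push Not at hc
    exact absurd (csInf_le hSb (show t ∈ S from ⟨ht, hc⟩)) (not_le.2 htT)
  have hyT1 : (γ T1).2 = 0 := by
    refine le_antisymm hT1S.2 ?_
    have hcl : closure (Ico 0 T1) = Icc 0 T1 := closure_Ico hT1pos.ne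
    have hsub : closure (Ico 0 T1) ⊆ {t | 0 ≤ (γ t).2} :=
      closure_minimal (fun t ht => (hypos t ht.1 ht.2).le) (isClosed_le continuous_const hcy)
    exact hsub (by rw [hcl]; exact right_mem_Icc.2 hT1pos.le)
  have hstrict : StrictMonoOn (fun t => (γ t).1) (Icc 0 T1) := by
    refine strictMonoOn_of_deriv_pos (convex_Icc 0 T1) hcx.continuousOn ?_
    rw [interior_Icc]
    intro t ht
    rw [(hx t).deriv]
    exact hypos t ht.1.le ht.2
  have hxpos : ∀ t, 0 < t → t ≤ T1 → 0 < (γ t).1 := by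
    intro t ht htT
    have h1 := hstrict (left_mem_Icc.2 hT1pos.le) ⟨ht.le, htT⟩ ht
    have h2 : (γ 0).1 < (γ t).1 := h1
    rwa [hx0] at h2
  have hxT1 : (γ T1).1 = X := by
    have h1 := lev (hk T1)
    rw [hyT1] at h1
    have h2 : 1 + (γ T1).1 ^ 2 ≤ kp X * Real.exp ((γ T1).1 ^ 2) := by nlinarith
    have h3 := absle hX (hk T1)
    have h4 := (le_abs_self (γ T1).1).trans h3
    rcases h4.lt_or_eq with h | h
    · have h5 := L0 (hxpos T1 hT1pos le_rfl).le h h2
      linarith [kp_eq X]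
    · exact h
  -- the reflected solution
  let ρ : ℝ → ℝ × ℝ := fun t => ((γ (2 * T1 - t)).1, -(γ (2 * T1 - t)).2)
  have hρd : ∀ t, HasDerivAt ρ (fld a c 0 (ρ t)) t := by
    intro t
    have hr : HasDerivAt (fun t : ℝ => 2 * T1 - t) (-1) t := by
      simpa using (hasDerivAt_id t).const_sub (2 * T1)
    have h1 : HasDerivAt (fun t => (γ (2 * T1 - t)).1) ((γ (2 * T1 - t)).2 * (-1)) t :=
      (hx (2 * T1 - t)).comp t hr
    have h2 : HasDerivAt (fun t => (γ (2 * T1 - t)).2)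
        ((-(γ (2 * T1 - t)).1 ^ 3 + (γ (2 * T1 - t)).1 * (γ (2 * T1 - t)).2 ^ 2) * (-1)) t :=
      (sol_snd (hγd (2 * T1 - t))).comp t hr
    refine (h1.prodMk h2.neg).congr_deriv ?_
    simp only [fld, ρ]
    ext <;> simp
  have hρk : ∀ t, kap (ρ t) = kp X := by
    intro t
    rw [← hk (2 * T1 - t)]
    simp [kap, ρ]
  have hρT1 : ρ T1 = γ T1 := by
    have e : 2 * T1 - T1 = T1 := by ring
    simp only [ρ, e]
    ext
    · rfl
    · simp [hyT1]
  let Γ : ℝ → ℝ × ℝ := fun t => if t ≤ T1 then γ t else ρ t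
  have hΓ1 : ∀ t, t ≤ T1 → Γ t = γ t := fun t ht => if_pos ht
  have hΓ2 : ∀ t, T1 ≤ t → Γ t = ρ t := fun t ht => by
    rcases ht.lt_or_eq with h | h
    · exact if_neg (not_le.2 h)
    · rw [← h, hΓ1 T1 le_rfl, hρT1]
  have hΓd : ∀ t, HasDerivAt Γ (fld a c 0 (Γ t)) t := by
    intro t
    rcases lt_trichotomy t T1 with h | h | h
    · have e : Γ =ᶠ[𝓝 t] γ := by
        filter_upwards [Iio_mem_nhds h] with s hs using hΓ1 s (le_of_lt hs)
      rw [hΓ1 t h.le]
      exact (hγd t).congr_of_eventuallyEq e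
    · have h1 : HasDerivWithinAt Γ (fld a c 0 (Γ t)) (Iic T1) t := by
        rw [h, hΓ1 T1 le_rfl]
        exact (hγd T1).hasDerivWithinAt.congr (fun s hs => hΓ1 s hs) (hΓ1 T1 le_rfl)
      have h2 : HasDerivWithinAt Γ (fld a c 0 (Γ t)) (Ici T1) t := by
        rw [h, hΓ2 T1 le_rfl]
        exact (hρd T1).hasDerivWithinAt.congr (fun s hs => hΓ2 s hs) (hΓ2 T1 le_rfl)
      have h3 := h1.union h2
      rw [Iic_union_Ici] at h3
      exact h3.hasDerivAt univ_mem
    · have e : Γ =ᶠ[𝓝 t] ρ := by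
        filter_upwards [Ioi_mem_nhds h] with s hs using hΓ2 s (le_of_lt hs)
      rw [hΓ2 t h.le]
      exact (hρd t).congr_of_eventuallyEq e
  have hΓk : ∀ t, kap (Γ t) = kp X := by
    intro t
    rcases le_total t T1 with h | h
    · rw [hΓ1 t h]; exact hk t
    · rw [hΓ2 t h]; exact hρk t
  have hΓc : Continuous Γ := continuous_iff_continuousAt.2 fun t => (hΓd t).continuousAt
  have hGc : Continuous fun p : ℝ × ℝ => G a c p := by unfold G; fun_prop
  have hγc : Continuous γ := continuous_iff_continuousAt.2 fun t => (hγd t).continuousAt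
  refine ⟨2 * T1, by linarith, Γ, ?_, ?_, fun t _ => hΓd t, fun t _ => hΓk t,
    fun t _ => normle hX (hΓk t), ?_, ?_⟩
  · rw [hΓ1 0 hT1pos.le, hγ0]
  · rw [hΓ2 (2 * T1) (by linarith)]
    simp only [ρ, sub_self]
    rw [hγ0]
  · intro t ht
    rcases le_total t T1 with h | h
    · rw [hΓ1 t h]; exact hxpos t ht.1 h
    · rw [hΓ2 t h]
      exact hxpos (2 * T1 - t) (by linarith [ht.2]) (by linarith)
  · -- the integral
    have hI : ∫ t in (0:ℝ)..T1, G a c (γ t) = Mel a c X := by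
      have hh : Continuous fun x : ℝ => Real.exp (-x ^ 2) * Y (kp X) x *
          (a + c * x ^ 2 + Y (kp X) x ^ 2) := by
        unfold Y
        fun_prop
      have h1 := intervalIntegral.integral_comp_mul_deriv (a := 0) (b := T1)
        (f := fun t => (γ t).1) (f' := fun t => (γ t).2)
        (g := fun x : ℝ => Real.exp (-x ^ 2) * Y (kp X) x * (a + c * x ^ 2 + Y (kp X) x ^ 2))
        (fun t _ => hx t) hcy.continuousOn hh
      rw [hx0, hxT1] at h1
      unfold Mel
      rw [← h1]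
      refine intervalIntegral.integral_congr fun t ht => ?_
      rw [uIcc_of_le hT1pos.le] at ht
      have hy1 : 0 ≤ (γ t).2 := by
        rcases ht.2.lt_or_eq with h | h
        · exact (hypos t ht.1 h).le
        · rw [h, hyT1]
      have hY : Y (kp X) (γ t).1 = (γ t).2 := by
        unfold Y
        rw [← lev (hk t), Real.sqrt_sq hy1]
      simp only [Function.comp]
      rw [hY]
      unfold G
      ring
    have hsplit := intervalIntegral.integral_add_adjacent_intervals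
      (a := (0:ℝ)) (b := T1) (c := 2 * T1) (μ := volume) (f := fun t => G a c (Γ t))
      ((hGc.comp hΓc).intervalIntegrable _ _) ((hGc.comp hΓc).intervalIntegrable _ _)
    rw [← hsplit]
    have hA : ∫ t in (0:ℝ)..T1, G a c (Γ t) = Mel a c X := by
      rw [← hI]
      refine intervalIntegral.integral_congr fun t ht => ?_
      rw [uIcc_of_le hT1pos.le] at ht
      show G a c (Γ t) = G a c (γ t)
      rw [hΓ1 t ht.2]
    have hB : ∫ t in T1..(2 * T1), G a c (Γ t) = Mel a c X := by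
      have h1 : ∫ t in T1..(2 * T1), G a c (Γ t) =
          ∫ t in T1..(2 * T1), G a c (γ (2 * T1 - t)) := by
        refine intervalIntegral.integral_congr fun t ht => ?_
        rw [uIcc_of_le (by linarith)] at ht
        show G a c (Γ t) = G a c (γ (2 * T1 - t))
        rw [hΓ2 t ht.1]
        simp [G, ρ]
      rw [h1, intervalIntegral.integral_comp_sub_left (fun t => G a c (γ t)) (2 * T1)]
      have e1 : 2 * T1 - 2 * T1 = 0 := by ring
      have e2 : 2 * T1 - T1 = T1 := by ring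
      rw [e1, e2, hI]
    rw [hA, hB]
    ring

end Pool.Agent.W587.HC
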